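import Mathlib
import Pool.Agent.H.MP_8ac0e4_co.Width

set_option autoImplicit false

namespace Pool.Agent.H.MP_8ac0e4_co

open Finset

def u {k d : ℕ} (x : Fin d → Fin k) (i : Fin d) : ℕ := ∑ l ∈ univ.erase i, (x l : ℕ)

def F (k d L s : ℕ) : Finset (Fin d → Fin k) :=
  {x | ∑ i, u x i / L = s ∧ ∃ i, u x i % L = L - 1}

lemma vfree (k d L s : ℕ) (hL : 0 < L) : VFree (F k d L s) := by
  rintro ⟨a, ha, b, hb, c, hc, ab, ac, n1, n2⟩
  obtain ⟨a1, i, a2⟩ := (mem_filter.1 ha).2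
  have key : ∀ b ∈ F k d L s, a ≤ b → ∀ j, j ≠ i → b j = a j := fun b hb ab j hj => by
    by_contra ne
    have m : ∀ l, u a l ≤ u b l := fun l => sum_le_sum fun t _ => ab t
    have lt : u a i < u b i := sum_lt_sum (fun t _ => ab t)
      ⟨j, by simp [hj], lt_of_le_of_ne (ab j) fun e => ne (Fin.ext e.symm)⟩
    have := sum_lt_sum (s := univ) (fun l _ => Nat.div_le_div_right (c := L) (m l))
      ⟨i, mem_univ _, (Nat.le_div_iff_mul_le hL).2 (by
        have := Nat.div_add_mod (u a i) L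
        rw [Nat.succ_mul, mul_comm]
        omega)⟩
    rw [a1, (mem_filter.1 hb).2.1] at this
    exact lt_irrefl _ this
  rcases le_total (b i) (c i) with h | h
  · exact n1 fun j => if e : j = i then e ▸ h else by rw [key b hb ab.le j e, key c hc ac.le j e]
  · exact n2 fun j => if e : j = i then e ▸ h else by rw [key b hb ab.le j e, key c hc ac.le j e]

lemma le_La (k d L s : ℕ) (hL : 0 < L) : #(F k d L s) ≤ La k d := by
  classical
  exact le_sup (f := card) (mem_filter.2 ⟨mem_univ _, vfree k d L s hL⟩)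

/-- the patterns modulo `L` -/
def P (L d : ℕ) (i : Fin d) : Finset (Fin d → Fin L) := {x | u x i % L = L - 1}

lemma P_card (L e : ℕ) (i : Fin (e + 2)) : (L + 1) ^ (e + 1) ≤ #(P (L + 1) (e + 2) i) := by
  obtain ⟨j, hj⟩ := exists_ne i
  have h := card_le_card_of_surjOn (s := P (L + 1) (e + 2) i) (t := univ)
    (fun (x : Fin (e + 2) → Fin (L + 1)) (l : Fin (e + 1)) => x (j.succAbove l)) fun y _ => by
      let x : Fin (e + 2) → Fin (L + 1) := j.insertNth 0 y
      let c := ∑ l ∈ (univ.erase i).erase j, (x l : ℕ)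
      refine ⟨Function.update x j ⟨L - c % (L + 1), by omega⟩, ?_, ?_⟩
      · simp only [P, coe_filter, mem_univ, true_and, Set.mem_ofPred_eq]
        rw [u, rk_split2 _ hj.symm, Function.update_self, sum_off (y := x) fun l _ b =>
          Function.update_of_ne b _ _]
        have a : c % (L + 1) < L + 1 := Nat.mod_lt c (Nat.succ_pos L)
        have b := Nat.div_add_mod c (L + 1)
        change (L - c % (L + 1) + c) % (L + 1) = L
        rw [show L - c % (L + 1) + c = L + (L + 1) * (c / (L + 1)) by omega,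
          Nat.add_mul_mod_self_left, Nat.mod_eq_of_lt (by omega)]
      · funext l
        simp [x]
  simpa using h

lemma mod_eq {a b c L : ℕ} (ha : a < L) (hb : b < L) (h : (a + c) % L = (b + c) % L) : a = b :=
  Nat.ModEq.eq_of_lt_of_lt (Nat.ModEq.add_right_cancel' c h) ha hb

lemma P_inter (L e : ℕ) {i j : Fin (e + 2)} (h : i ≠ j) :
    #(P L (e + 2) i ∩ P L (e + 2) j) ≤ L ^ e := by
  refine two _ h fun x hx y hy a => ?_
  simp only [P, mem_inter, mem_filter, mem_univ, true_and] at hx hy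
  rw [u, u, rk_split2 _ h, rk_split2 _ h.symm, erase_right_comm (a := j)] at hx hy
  rw [sum_off a] at hx
  exact ext2 (Fin.ext (mod_eq (x i).2 (y i).2 (hx.2.trans hy.2.symm)))
    (Fin.ext (mod_eq (x j).2 (y j).2 (hx.1.trans hy.1.symm))) a

lemma bonf {α ι : Type} [DecidableEq α] [DecidableEq ι] (S : ι → Finset α) (c : ℕ)
    (h : ∀ i j, i ≠ j → #(S i ∩ S j) ≤ c) (I : Finset ι) :
    ∑ i ∈ I, #(S i) ≤ #(I.biUnion S) + #I * #I * c := by
  induction I using Finset.induction_on with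
  | empty => simp
  | insert a I ha ih =>
    have e := card_union_add_card_inter (S a) (I.biUnion S)
    have f : #(S a ∩ I.biUnion S) ≤ #I * c := by
      rw [inter_biUnion]
      exact card_biUnion_le_card_mul _ _ _ fun i hi => h _ _ fun b => ha (b ▸ hi)
    rw [sum_insert ha, biUnion_insert, card_insert_of_notMem ha]
    nlinarith [Nat.zero_le (#I * c), Nat.zero_le c]

lemma good (L e : ℕ) : ∃ ρ, (e + 2) * (L + 1) ^ (e + 1) ≤
    (e + 1) * #{x ∈ univ.biUnion (P (L + 1) (e + 2)) | (∑ i, u x i / (L + 1)) % (e + 1) = ρ} +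
      (e + 2) * (e + 2) * (L + 1) ^ e := by
  obtain ⟨ρ, -, h⟩ := exists_max_image (range (e + 1)) (fun ρ =>
    #{x ∈ univ.biUnion (P (L + 1) (e + 2)) | (∑ i, u x i / (L + 1)) % (e + 1) = ρ}) (by simp)
  have a := card_le_mul_card_image_of_maps_to (s := univ.biUnion (P (L + 1) (e + 2)))
    (f := fun x => (∑ i, u x i / (L + 1)) % (e + 1)) (t := range (e + 1))
    (fun x _ => mem_range.2 (Nat.mod_lt _ (Nat.succ_pos e))) _ h
  have b := bonf (P (L + 1) (e + 2)) _ (fun i j => P_inter (L + 1) e) univ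
  have c := card_nsmul_le_sum univ _ _ fun i _ => P_card L e i
  rw [card_range, mul_comm] at a
  simp only [card_univ, Fintype.card_fin, smul_eq_mul] at b c
  exact ⟨ρ, by omega⟩

lemma sum_u {k e : ℕ} (x : Fin (e + 2) → Fin k) : ∑ i, u x i = (e + 1) * rk x := by
  have a : ∑ i, ((x i : ℕ) + u x i) = (e + 2) * rk x := by
    exact (sum_congr rfl fun i _ => (rk_split x i).symm).trans (by simp)
  rw [sum_add_distrib, show (e + 2) * rk x = rk x + (e + 1) * rk x by ring] at a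
  exact Nat.add_left_cancel a

lemma F_card {k K L e m σ ρ : ℕ} (hk : (L + 1) * K ≤ k) (hm : m ≤ N K (e + 2) σ) :
    #{x ∈ univ.biUnion (P (L + 1) (e + 2)) | (∑ i, u x i / (L + 1)) % (e + 1) = ρ} *
      (m - (e + 2) * (e + 2) * K ^ e) ≤
      #(F k (e + 2) (L + 1) ((e + 1) * (σ + (e + 2) * (e + 2)) + ρ)) := by
  have cb : ∀ x : Fin (e + 2) → Fin (L + 1), ∑ i, u x i / (L + 1) ≤ (e + 2) * (e + 2) := fun x => by
    refine (sum_le_card_nsmul _ _ (e + 2) fun i _ => Nat.div_le_of_le_mul ?_).trans (by simp)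
    refine (sum_le_card_nsmul _ _ (L + 1) fun l _ => (x l).2.le).trans ?_
    rw [smul_eq_mul, mul_comm]
    exact Nat.mul_le_mul_left _ ((card_le_univ _).trans (by simp))
  rw [← smul_eq_mul]
  refine (card_nsmul_le_sum _ (fun x => N K (e + 2) (σ + ((e + 2) * (e + 2) -
    (∑ i, u x i / (L + 1)) / (e + 1)))) _ fun x _ => ?_).trans ?_
  · have a := N_ups K e σ ((e + 2) * (e + 2) - (∑ i, u x i / (L + 1)) / (e + 1))
    have b := Nat.mul_le_mul_right (K ^ e)
      (Nat.sub_le ((e + 2) * (e + 2)) ((∑ i, u x i / (L + 1)) / (e + 1)))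
    omega
  simp only [N]
  rw [← card_sigma]
  refine card_le_card_of_injOn (fun q i => ⟨(L + 1) * q.2 i + q.1 i, by
    have := Nat.mul_le_mul_left (L + 1) (Nat.succ_le_of_lt (q.2 i).2)
    have := (q.1 i).2
    rw [Nat.mul_succ] at *
    omega⟩) ?_ ?_
  · rintro ⟨x, X⟩ hq
    simp only [coe_sigma, Set.mem_sigma_iff, coe_filter, mem_biUnion, mem_univ, true_and, P,
      mem_filter, Set.mem_ofPred_eq, F] at hq ⊢
    obtain ⟨⟨⟨i, a⟩, b⟩, c⟩ := hq
    simp only [u, sum_add_distrib, ← mul_sum, Nat.mul_add_div (Nat.succ_pos L),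
      Nat.mul_add_mod] at a ⊢
    refine ⟨?_, i, a⟩
    have d := sum_u X
    have f := Nat.div_add_mod (∑ i, u x i / (L + 1)) (e + 1)
    have g := (Nat.div_le_self _ (e + 1)).trans (cb x)
    obtain ⟨t, ht⟩ := Nat.exists_eq_add_of_le g
    rw [c, ht, Nat.add_sub_cancel_left] at d
    rw [ht]
    simp only [u] at d f b ⊢
    rw [d, ← b]
    linarith
  · rintro ⟨x, X⟩ - ⟨y, Y⟩ - a
    have b : ∀ i, (L + 1) * (X i : ℕ) + x i = (L + 1) * Y i + y i := fun i =>
      Fin.mk.inj (congrFun a i)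
    obtain rfl : x = y := funext fun i => Fin.ext (by
      have := congrArg (· % (L + 1)) (b i)
      simpa [Nat.mod_eq_of_lt (x i).2, Nat.mod_eq_of_lt (y i).2] using this)
    obtain rfl : X = Y := funext fun i => Fin.ext (by simpa using b i)
    rfl

/-- the finite form of the comparison -/
lemma fin (k K L e : ℕ) (h1 : (L + 1) * (K + 1) ≤ k) (h2 : k ≤ (L + 1) * (K + 2)) :
    ∃ m p : ℕ, (K + 1) ^ (e + 1) ≤ (e + 2) * m ∧
      w k (e + 2) ≤ (m + (e + 2) * (K + 2) ^ e) * (L + 1) ^ (e + 1) ∧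
      (e + 2) * (L + 1) ^ (e + 1) ≤ (e + 1) * p + (e + 2) * (e + 2) * (L + 1) ^ e ∧
      p * (m - (e + 2) * (e + 2) * (K + 1) ^ e) ≤ La k (e + 2) := by
  obtain ⟨σ, a, b⟩ := N_max K (e + 2)
  obtain ⟨ρ, c⟩ := good L e
  refine ⟨_, _, ?_, ?_, c, (F_card h1 (le_refl (N (K + 1) (e + 2) σ))).trans
    (le_La _ _ _ _ (Nat.succ_pos L))⟩
  · refine Nat.le_of_mul_le_mul_right ?_ (Nat.succ_pos K)
    rw [← pow_succ]
    nlinarith [Nat.zero_le ((e + 1) * N (K + 1) (e + 2) σ)]
  · obtain ⟨k, rfl⟩ : ∃ k', k = k' + 1 := ⟨k - 1, (Nat.sub_add_cancel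
      (le_trans (Nat.mul_pos (Nat.succ_pos L) (Nat.succ_pos K)) h1)).symm⟩
    exact (w_le k _).trans (N_blow (Nat.succ_pos L) h2
      (fun T => (N_pad _ _ T).trans (Nat.add_le_add_right (a T) _)) _)

end Pool.Agent.H.MP_8ac0e4_co
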